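import Pool.Agent.H.MP_03b314_an.A

namespace Pool.Agent.Results.MP_03b314_an.NotNehari
open Pool.Agent.H.MP_03b314_an Finset

theorem result (p : ℝ) (h1 : 1 < p) (h2 : p ≠ 2) : ∃ f : ℕ → ℂ, (Summable fun n => ‖f n‖ ^ 2) ∧
    HankelBdd p f ∧ ¬ ∃ m : UnitAddCircle → ℂ, InM p m ∧ ∀ n : ℕ, fourierCoeff m n = f n := by
  have h := Real.HolderConjugate.conjExponent h1
  have inj : Function.Injective fun k : ℕ => 2 ^ k := Nat.pow_right_injective le_rfl
  obtain ⟨f, f1, f2⟩ : ∃ f : ℕ → ℂ, (∀ k : ℕ, f (2 ^ k) = (1 / ((k : ℝ) + 1) : ℝ)) ∧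
      ∀ n, f n ≠ 0 → ∃ k, n = 2 ^ k :=
    ⟨Function.extend (fun k : ℕ => 2 ^ k) (fun k : ℕ => ((1 / ((k : ℝ) + 1) : ℝ) : ℂ)) 0,
      fun k => inj.extend_apply _ _ k, fun n hn => by_contra fun e => hn
        (Function.extend_apply' _ _ _ fun ⟨k, hk⟩ => e ⟨k, hk.symm⟩)⟩
  have s : ∀ r : ℝ, 1 < r → Summable fun n => ‖f n‖ ^ r := by
    intro r hr
    rw [← inj.summable_iff fun n hn => by
      rw [show f n = 0 from by_contra fun e => hn ((f2 n e).imp fun _ => Eq.symm), norm_zero,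
        Real.zero_rpow (by positivity)]]
    refine ((summable_nat_add_iff 1).2 (Real.summable_one_div_nat_rpow.2 hr)).congr fun k => ?_
    simp only [Function.comp, f1, Complex.norm_real]
    rw [Real.norm_of_nonneg (by positivity), Real.div_rpow zero_le_one (by positivity), Real.one_rpow]
    simp
  refine ⟨f, by simpa using s 2 one_lt_two, hankel h f2 (s _ h1) (s _ h.symm.lt), ?_⟩
  rintro ⟨m, hm, e⟩
  obtain ⟨C, hC⟩ := of_InM h hm
  obtain ⟨δ, d0, hδ⟩ := iter h h2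
  obtain ⟨K, hK⟩ := (Real.tendsto_sum_range_one_div_nat_succ_atTop.eventually_gt_atTop
    ((C + ‖fourierCoeff m 0‖) / |δ|)).exists
  have a := hδ C K _ (hC _) fun n _ _ hn => by
    rw [e]; exact by_contra fun e => (f2 n e).elim hn
  have b : ∑ k ∈ range K, fourierCoeff m (2 ^ k) = (∑ k ∈ range K, 1 / ((k : ℝ) + 1) : ℝ) := by
    rw [Complex.ofReal_sum]
    exact sum_congr rfl fun k _ => by rw [← f1, ← e]; simp
  have c := norm_sub_le (fourierCoeff m 0 + δ * ∑ k ∈ range K, fourierCoeff m (2 ^ k))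
    (fourierCoeff m 0)
  rw [add_sub_cancel_left, norm_mul, b, Complex.norm_real, Complex.norm_real, Real.norm_eq_abs,
    Real.norm_of_nonneg (by positivity), ← b] at c
  rw [div_lt_iff₀' (abs_pos.2 d0)] at hK
  linarith

end Pool.Agent.Results.MP_03b314_an.NotNehari
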